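import Pool.Agent.Q278.KT.Stm

/-!
# Project KT, job CPT: compactness
-/

set_option autoImplicit false

namespace Pool.Agent.Q208.KT

open Finset Filter Topology Pool.Agent.Q278.KT

/-- the space of the parameters -/
abbrev X : Type := (Fin 10 → ℝ) × (Fin 10 → ℝ) × ℝ × ℝ

theorem lim_le {x : ℕ → X} {a : X} (hx : Tendsto x atTop (𝓝 a)) {e : ℕ → ℝ}
    (he : Tendsto e atTop (𝓝 0)) {F G : X → ℝ} (hF : Continuous F) (hG : Continuous G)
    (h : ∀ᶠ n in atTop, F (x n) ≤ G (x n) + e n) : F a ≤ G a + 0 :=
  le_of_tendsto_of_tendsto ((hF.tendsto a).comp hx) (((hG.tendsto a).comp hx).add he) h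

theorem ev_le {x : ℕ → X} {a : X} (hx : Tendsto x atTop (𝓝 a)) {e : ℕ → ℝ}
    (he : Tendsto e atTop (𝓝 0)) {F G : X → ℝ} (hF : Continuous F) (hG : Continuous G) {y : ℝ}
    (hy : y < 0) (h : F a ≤ G a + y) : ∀ᶠ n in atTop, F (x n) ≤ G (x n) + -e n := by
  have h1 : Tendsto (fun n => G (x n) + -e n - F (x n)) atTop (𝓝 (G a + -0 - F a)) :=
    ((((hG.tendsto a).comp hx).add he.neg)).sub ((hF.tendsto a).comp hx)
  have h2 : (0 : ℝ) < G a + -0 - F a := by linarith
  filter_upwards [h1.eventually_const_lt h2] with n hn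
  linarith

theorem t_CPT : S_CPT := by
  intro lam0 e0 hl0 hl1 hX ε₀ hε₀
  by_contra hcon
  push Not at hcon
  set e : ℕ → ℝ := fun n => 1 / ((n : ℝ) + 1000) with he
  have he0 : ∀ n, 0 < e n := fun n => by
    simp only [he]
    positivity
  have he1 : ∀ n, e n ≤ 1 / 1000 := by
    intro n
    simp only [he]
    apply one_div_le_one_div_of_le (by norm_num)
    have : (0 : ℝ) ≤ n := Nat.cast_nonneg n
    linarith
  have hlim : Tendsto e atTop (𝓝 0) := by
    have h1 : Tendsto (fun n : ℕ => (n : ℝ) + 1000) atTop atTop :=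
      tendsto_atTop_add_const_right _ _ tendsto_natCast_atTop_atTop
    simp only [he, one_div]
    exact tendsto_inv_atTop_zero.comp h1
  have hex := fun n => hcon (e n) (he0 n) (he1 n)
  choose al ka lam R hC hk hA using hex
  let x : ℕ → X := fun n => (al n, ka n, lam n, R n)
  have hsum3 : ∀ n, ∑ i, ka n i < 3 := by
    intro n
    by_contra h3
    rw [not_lt] at h3
    apply hA n
    left
    have h4 := (hC n).R0.2
    have h5 := (hC n).la.2
    have h6 := he1 n
    linarith
  have hmem : ∀ n, x n ∈ Set.Icc ((fun _ => 0, fun _ => 0, 0, 0) : X) (fun _ => 3, fun _ => 3, 3, 3) := by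
    intro n
    have h6 := he1 n
    have h7 := he0 n
    have hla := (hC n).la
    have hR0 := (hC n).R0
    have hone := abs_le.mp (hC n).one
    refine ⟨⟨fun i => ((hC n).nn i).1, fun i => ((hC n).nn i).2, hla.1, hR0.1⟩,
      ⟨fun i => ?_, fun i => ?_, ?_, ?_⟩⟩
    · have h8 : al n i ≤ ∑ i, al n i :=
        single_le_sum (fun j _ => ((hC n).nn j).1) (mem_univ i)
      show al n i ≤ 3
      linarith
    · have h8 : ka n i ≤ ∑ i, ka n i :=
        single_le_sum (fun j _ => ((hC n).nn j).2) (mem_univ i)
      have h9 := hsum3 n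
      show ka n i ≤ 3
      linarith
    · show lam n ≤ 3
      linarith
    · show R n ≤ 3
      linarith
  obtain ⟨a, -, φ, hφ, hx⟩ := isCompact_Icc.tendsto_subseq hmem
  have heφ : Tendsto (e ∘ φ) atTop (𝓝 0) := hlim.comp hφ.tendsto_atTop
  have hlimC : Con lam0 0 (1 / 100000) a.1 a.2.1 a.2.2.1 a.2.2.2 := by
    refine ⟨?_, ?_, ?_, ?_, ?_, ?_, ?_⟩
    · intro i
      constructor
      · have h := lim_le hx heφ (F := fun _ => 0) (G := fun z => z.1 i) (by fun_prop) (by fun_prop)
          (Eventually.of_forall fun n => by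
            have h1 := ((hC (φ n)).nn i).1
            have h2 := he0 (φ n)
            show 0 ≤ al (φ n) i + e (φ n)
            linarith)
        simpa using h
      · have h := lim_le hx heφ (F := fun _ => 0) (G := fun z => z.2.1 i) (by fun_prop) (by fun_prop)
          (Eventually.of_forall fun n => by
            have h1 := ((hC (φ n)).nn i).2
            have h2 := he0 (φ n)
            show 0 ≤ ka (φ n) i + e (φ n)
            linarith)
        simpa using h
    · have h := lim_le hx heφ (F := fun z => |∑ i, z.1 i - 1|) (G := fun _ => 0) (by fun_prop)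
          (by fun_prop)
          (Eventually.of_forall fun n => by
            have h1 := (hC (φ n)).one
            show |∑ i, al (φ n) i - 1| ≤ 0 + e (φ n)
            linarith)
      simpa using h
    · constructor
      · have h := lim_le hx heφ (F := fun _ => 0) (G := fun z => z.2.2.1) (by fun_prop) (by fun_prop)
          (Eventually.of_forall fun n => by
            have h1 := (hC (φ n)).la.1
            have h2 := he0 (φ n)
            show 0 ≤ lam (φ n) + e (φ n)
            linarith)
        simpa using h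
      · exact lim_le hx heφ (F := fun z => z.2.2.1) (G := fun _ => lam0) (by fun_prop) (by fun_prop)
          (Eventually.of_forall fun n => (hC (φ n)).la.2)
    · constructor
      · have h := lim_le hx heφ (F := fun _ => 0) (G := fun z => z.2.2.2) (by fun_prop) (by fun_prop)
          (Eventually.of_forall fun n => by
            have h1 := (hC (φ n)).R0.1
            have h2 := he0 (φ n)
            show 0 ≤ R (φ n) + e (φ n)
            linarith)
        simpa using h
      · exact lim_le hx heφ (F := fun z => z.2.2.2) (G := fun z => z.2.2.1) (by fun_prop)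
          (by fun_prop) (Eventually.of_forall fun n => (hC (φ n)).R0.2)
    · intro i hi
      exact lim_le hx heφ (F := fun z => z.1 i) (G := fun _ => 1 / 5) (by fun_prop)
          (by fun_prop) (Eventually.of_forall fun n => (hC (φ n)).mob i hi)
    · intro i hi
      refine ⟨?_, ?_, ?_, ?_⟩
      · exact lim_le hx heφ (F := fun z => z.1 i) (G := fun z => z.2.2.1) (by fun_prop)
          (by fun_prop) (Eventually.of_forall fun n => ((hC (φ n)).smo i hi).1)
      · exact lim_le hx heφ (F := fun z => z.1 i / 2 - z.2.2.1 / 6) (G := fun z => z.2.1 i)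
          (by fun_prop) (by fun_prop) (Eventually.of_forall fun n => ((hC (φ n)).smo i hi).2.1)
      · exact lim_le hx heφ (F := fun z => z.1 i - z.2.2.1 / 2) (G := fun z => z.2.1 i)
          (by fun_prop) (by fun_prop) (Eventually.of_forall fun n => ((hC (φ n)).smo i hi).2.2.1)
      · exact lim_le hx heφ (F := fun z => z.2.2.2)
          (G := fun z => z.2.2.1 - 2 * z.1 i + 4 * z.2.1 i)
          (by fun_prop) (by fun_prop) (Eventually.of_forall fun n => ((hC (φ n)).smo i hi).2.2.2)
    · intro i hi m hm1 hm2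
      have hcl : Tendsto (fun n => al (φ n) i) atTop (𝓝 (a.1 i)) :=
        ((by fun_prop : Continuous fun z : X => z.1 i).tendsto a).comp hx
      have hbig : (1 : ℝ) / 200000 < a.1 i := lt_of_lt_of_le (by norm_num) hi
      refine lim_le hx heφ (F := fun z => z.2.2.2)
          (G := fun z => max (2 * m * z.2.1 i) (min (z.2.2.1 - m * z.1 i + 2 * m * z.2.1 i)
            (z.2.2.1 - 2 * m * z.1 i + 6 * m * z.2.1 i)))
          (by fun_prop) (by fun_prop) ?_
      filter_upwards [hcl.eventually_const_lt hbig] with n hn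
      exact (hC (φ n)).lv i hn.le m hm1 hm2
  have hpos : 0 < ∑ i, a.2.1 i := by
    have h := lim_le hx heφ (F := fun _ => ε₀) (G := fun z => ∑ i, z.2.1 i) (by fun_prop)
        (by fun_prop)
        (Eventually.of_forall fun n => by
          have h1 := hk (φ n)
          have h2 := he0 (φ n)
          show ε₀ ≤ ∑ i, ka (φ n) i + e (φ n)
          linarith)
    simp only [add_zero] at h
    linarith
  obtain ⟨y, hy, hAlt⟩ := hX a.1 a.2.1 a.2.2.1 a.2.2.2 hlimC hpos
  have hfin : ∀ᶠ n in atTop, Alt lam0 e0 (-e (φ n)) (al (φ n)) (ka (φ n)) (R (φ n)) := by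
    rcases hAlt with h | h | ⟨S, h1, h2, h3⟩
    · have h' := ev_le hx heφ (F := fun z => z.2.2.2) (G := fun z => ∑ i, z.2.1 i) (by fun_prop)
        (by fun_prop) hy h
      filter_upwards [h'] with n hn
      exact Or.inl hn
    · have h' := ev_le hx heφ (F := fun z => z.2.2.2)
        (G := fun z => 2 * ∑ i, z.2.1 i + e0 - lam0) (by fun_prop) (by fun_prop) hy h
      filter_upwards [h'] with n hn
      exact Or.inr (Or.inl hn)
    · have c1 := ev_le hx heφ (F := fun z => gg z.2.1 z.2.2.2 S) (G := fun _ => 0)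
        (by unfold gg; fun_prop) (by fun_prop) hy (by rw [zero_add]; exact h1)
      have c2 := ev_le hx heφ (F := fun z => gg z.2.1 z.2.2.2 S + lam0 - ∑ i ∈ S, z.1 i)
        (G := fun _ => e0) (by unfold gg; fun_prop) (by fun_prop) hy h2
      have c3 := ev_le hx heφ
        (F := fun z => 4 * (gg z.2.1 z.2.2.2 S + 3 / 4 * lam0 - ∑ i ∈ S, z.1 i))
        (G := fun _ => e0) (by unfold gg; fun_prop) (by fun_prop) hy h3
      filter_upwards [c1, c2, c3] with n h1 h2 h3
      refine Or.inr (Or.inr ⟨S, ?_, h2, h3⟩)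
      have h4 : gg (ka (φ n)) (R (φ n)) S ≤ 0 + -e (φ n) := h1
      rwa [zero_add] at h4
  obtain ⟨n, hn⟩ := hfin.exists
  exact hA (φ n) hn

end Pool.Agent.Q208.KT
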